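import Pool.Agent.TH192.MU.TopZ

set_option autoImplicit false

/-! # Topological zeta functions of products of powers of determinantal forms

Let `x` be the generic matrix of one of the three spaces `S` of matrices: all `m × n` matrices, the
symmetric `n × n` matrices, the skew symmetric `n × n` matrices (`MSpace`). For `t < T` let
`F_t = ∑_j y_{t,j} M_j(x)`, where the `M_j` are the `p t`-minors of `x` (the Pfaffians of size
`2 (p t)` in the skew symmetric case), `p t < min (m, n)`, `p t < n`, or `2 (p t) + 1 < n`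
(`Small`), and the `y_{t,j}` are further variables, separate for each `t`. Let
`f = ∏ t, F_t ^ a t`, `a t > 0` (`detForm`, with integral coefficients).

The topological zeta function is defined as by Denef and Loeser, from the motivic zeta function
`Z_mot(T) = ∑_d [X_d] 𝕃 ^ (-n d) T ^ d` in `𝓜[[T]]`, `X_d` the `d`-jets with origin in `W` on which `f`
has the order `d` (`zetaM f W {c | c ≠ 0}`), `𝓜` the Grothendieck ring of complex varieties,
localised at `𝕃`: `Z_top(s) = χ(Z_mot(𝕃 ^ (-s)))` for `s = 1, 2, 3, …`; `W = univ` gives the global one.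
For this, let `E` be a homomorphism from `𝓜` to a domain `R` with `E(𝕃) ≠ 1`, such as the
Hodge-Deligne polynomial `E(u, v)`, and `ε` a homomorphism from `R` to `ℂ` with `ε(E(𝕃)) = 1`, such as
`u, v ↦ 1`, so that `ε ∘ E` is the Euler characteristic `χ` (`IsTopZeta`).

The starting result `DeterminantalForms` treats the forms `∑ y_j M_j`, the `M_j` products of minors;
here the forms are products, with arbitrary multiplicities `a t`. Everything comes from the
starting library `Pool.Agent.TH192`; no resolution is used. -/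

namespace Pool.Agent.Results.MP_504089_ag.DeterminantalPowers

open MvPolynomial Pool.Agent.H628R4.TP Pool.Agent.TH192.DT Pool.Agent.TH192.MT
  Pool.Agent.TH192.MU Pool.Agent.W428.MOT

/-- **The strong monodromy conjecture for the topological zeta functions of `f = ∏ t, F_t ^ a t`**,
`F_t` the forms with the minors of size `p t` of a generic, symmetric or skew symmetric matrix as
coefficients; global (`W = Set.univ`), and for the arcs with origin in any constructible set `W`.
There is exactly one rational function `Z` with `Z(s) = ε(E(Z_mot(𝕃 ^ (-s))))` for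
`s = 1, 2, 3, …`; each of its poles `s₀` is one of the `-ν_d / N_d` and `-1 / a t`, `ν_d` the codimension
of the matrices of rank `≤ d` (`≤ 2 d`), `N_d = ∑ t, a t max (p t - d, 0)`, and it is a root of every `b`
with `b(s) f ^ s = P(s) f ^ (s + 1)`, in particular of the Bernstein-Sato polynomial of `f`. -/
theorem result (S : MSpace) (T : ℕ) (p a : Fin T → ℕ) (hp : ∀ t, S.Small (p t))
    (ha : ∀ t, 0 < a t) (W : Set (Pt ℂ ((Σ t, S.Idx (p t)) ⊕ S.Var))) (hW : Constr W)
    (R : Type) [CommRing R] [IsDomain R] (E : MK ℂ →+* R) (ε : R →+* ℂ)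
    (hε : ε (E ((Lu ℂ : (MK ℂ)ˣ) : MK ℂ)) = 1) (hE : E ((Lu ℂ : (MK ℂ)ˣ) : MK ℂ) ≠ 1) :
    ∃ Z : RatFunc ℂ,
      IsTopZeta E ε (zetaM (map (Int.castRingHom ℂ) (detForm S p a)) W {c | c ≠ 0}) Z ∧
      (∀ Z', IsTopZeta E ε
        (zetaM (map (Int.castRingHom ℂ) (detForm S p a)) W {c | c ≠ 0}) Z' → Z' = Z) ∧
      ∀ s₀ : ℂ, Z.denom.eval s₀ = 0 →
        (∃ q ∈ formPairs S p a, s₀ = (q.1 : ℂ) / q.2) ∧
        ∀ b : Polynomial ℂ, IsBFunction (map (Int.castRingHom ℂ) (detForm S p a)) b →
          b.eval s₀ = 0 := by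
  obtain ⟨Z, h1, h2, h3⟩ := form_top S T p a hp ha hW E ε hε hE
  refine ⟨Z, h1, h2, fun s₀ hs => ?_⟩
  obtain ⟨q, hq, rfl⟩ := h3 s₀ hs
  exact ⟨⟨q, hq, rfl⟩, (form_roots S T p a hp ha q hq).2.2.1⟩

end Pool.Agent.Results.MP_504089_ag.DeterminantalPowers
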